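import Pool.Agent.Work.MP_6c3bcd_an.CK.Act
import Pool.Agent.Work.MP_6c3bcd_an.Skel.SigmaCase
import Pool.Agent.Work.MP_6c3bcd_an.Skel.AspDual

/-!
# The dual of `C(K)` has a projectional skeleton
-/

universe u v w

namespace Pool.Agent.Work.MP_6c3bcd_an.CK

open MeasureTheory Set Topology
open scoped NNReal ENNReal CompactlySupported
open Pool.Agent.Work.MP_6c3bcd_an.Skel

section

variable {𝕜 : Type u} [RCLike 𝕜] {K : Type v} [TopologicalSpace K] [CompactSpace K]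
  [MeasurableSpace K] [BorelSpace K] {ι : Type w} {μ : ι → Measure K}
  [hfin : ∀ i, IsFiniteMeasure (μ i)] (b : ∀ i, Set (Lp 𝕜 2 (μ i)))

/-- The functionals given by the basis vectors of the members of `C`. -/
def gens (C : Set ι) : Set (StrongDual 𝕜 C(K, 𝕜)) := {a | ∃ i ∈ C, ∃ e ∈ b i, act (μ i) e = a}

theorem exists_sm (C : Set ι) {a : StrongDual 𝕜 C(K, 𝕜)} (ha : a ∈ Submodule.span 𝕜 (gens b C)) :
    ∃ F : Finset (Measure K), (∀ κ ∈ F, ∃ i ∈ C, μ i = κ) ∧ Sm a F := by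
  classical
  induction ha using Submodule.span_induction with
  | mem x hx =>
    obtain ⟨i, hi, e, _, rfl⟩ := hx
    exact ⟨{μ i}, fun κ hκ => ⟨i, hi, (Finset.mem_singleton.1 hκ).symm⟩, sm_act (μ i) e⟩
  | zero => exact ⟨∅, fun κ hκ => by simp at hκ, sm_zero⟩
  | add x y _ _ hx hy =>
    obtain ⟨F, hF, h1⟩ := hx
    obtain ⟨F', hF', h2⟩ := hy
    refine ⟨F ∪ F', fun κ hκ => ?_, h1.add h2⟩
    rcases Finset.mem_union.1 hκ with h | h
    · exact hF κ h
    · exact hF' κ h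
  | smul c x _ hx =>
    obtain ⟨F, hF, h1⟩ := hx
    exact ⟨F, hF, h1.smul c⟩

theorem norm_le_span [T2Space K] (hreg : ∀ i, (μ i).InnerRegular)
    (hs : ∀ i j, i ≠ j → μ i ⟂ₘ μ j) {C C' : Set ι} (hC : Disjoint C C')
    {a c : StrongDual 𝕜 C(K, 𝕜)} (ha : a ∈ (Submodule.span 𝕜 (gens b C)).topologicalClosure)
    (hc : c ∈ (Submodule.span 𝕜 (gens b C')).topologicalClosure) : ‖a‖ ≤ ‖a + c‖ := by
  have hA' : a ∈ closure (Submodule.span 𝕜 (gens b C) : Set (StrongDual 𝕜 C(K, 𝕜))) := by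
    rw [← Submodule.topologicalClosure_coe]
    exact ha
  have hB' : c ∈ closure (Submodule.span 𝕜 (gens b C') : Set (StrongDual 𝕜 C(K, 𝕜))) := by
    rw [← Submodule.topologicalClosure_coe]
    exact hc
  have hcl : IsClosed {p : StrongDual 𝕜 C(K, 𝕜) × StrongDual 𝕜 C(K, 𝕜) | ‖p.1‖ ≤ ‖p.1 + p.2‖} :=
    isClosed_le continuous_fst.norm (continuous_fst.add continuous_snd).norm
  have hmem : ((a, c) : StrongDual 𝕜 C(K, 𝕜) × StrongDual 𝕜 C(K, 𝕜)) ∈
      closure ((Submodule.span 𝕜 (gens b C) : Set (StrongDual 𝕜 C(K, 𝕜))) ×ˢ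
      (Submodule.span 𝕜 (gens b C') : Set (StrongDual 𝕜 C(K, 𝕜)))) := by
    rw [closure_prod_eq]
    exact ⟨hA', hB'⟩
  refine hcl.closure_subset_iff.2 ?_ hmem
  rintro ⟨x, y⟩ ⟨hx, hy⟩
  obtain ⟨F, hF, h1⟩ := exists_sm b C hx
  obtain ⟨F', hF', h2⟩ := exists_sm b C' hy
  refine norm_le_of_sm (F := F) (F' := F') ?_ ?_ ?_ h1 h2
  · intro κ hκ
    obtain ⟨i, _, rfl⟩ := hF κ hκ
    exact ⟨hfin i, hreg i⟩
  · intro κ hκ
    obtain ⟨i, _, rfl⟩ := hF' κ hκ
    exact ⟨hfin i, hreg i⟩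
  · intro κ hκ κ' hκ'
    obtain ⟨i, hi, rfl⟩ := hF κ hκ
    obtain ⟨j, hj, rfl⟩ := hF' κ' hκ'
    refine hs i j ?_
    rintro rfl
    exact hC.ne_of_mem hi hj rfl

/-- The functionals which are nonzero at countably many generators. -/
def dd : Submodule 𝕜 (StrongDual 𝕜 (StrongDual 𝕜 C(K, 𝕜))) where
  carrier := {z | {x | x ∈ gens b univ ∧ z x ≠ 0}.Countable}
  add_mem' := by
    intro z z' hz hz'
    refine Countable.mono ?_ (Countable.union hz hz')
    rintro x ⟨hx, h⟩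
    by_cases h1 : z x = 0
    · refine Or.inr ⟨hx, fun h2 => h ?_⟩
      rw [add_apply, h1, h2, add_zero]
    · exact Or.inl ⟨hx, h1⟩
  zero_mem' := by
    refine Countable.mono (s₂ := ∅) ?_ countable_empty
    rintro x ⟨_, h⟩
    exact absurd rfl h
  smul_mem' := by
    intro c z hz
    refine Countable.mono ?_ hz
    rintro x ⟨hx, h⟩
    refine ⟨hx, fun h2 => h ?_⟩
    change c • z x = 0
    rw [h2, smul_zero]

theorem dd_norming [T2Space K] (hreg : ∀ i, (μ i).InnerRegular)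
    (hs : ∀ i j, i ≠ j → μ i ⟂ₘ μ j)
    (hb : ∀ i, Orthonormal 𝕜 ((↑) : b i → Lp 𝕜 2 (μ i)))
    (hd : Dense (Submodule.span 𝕜 (gens b univ) : Set (StrongDual 𝕜 C(K, 𝕜)))) :
    IsNorming (𝕜 := 𝕜) (X := StrongDual 𝕜 C(K, 𝕜)) (dd b) := by
  refine ⟨1, one_pos, fun f => ?_⟩
  have hbdd : BddAbove {r : ℝ | ∃ Λ ∈ dd b, ‖Λ‖ ≤ 1 ∧ r = ‖Λ f‖} := by
    refine ⟨‖f‖, ?_⟩
    rintro _ ⟨Λ, _, hΛ, rfl⟩
    exact (Λ.le_opNorm f).trans (mul_le_of_le_one_left (norm_nonneg _) hΛ)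
  -- a countable set of generators for `f`
  obtain ⟨y, hy, hlim⟩ := mem_closure_iff_seq_limit.1 (hd f)
  choose F hF hyF using fun n => Submodule.mem_span_finite_of_mem_span (hy n)
  set G₀ : Set (StrongDual 𝕜 C(K, 𝕜)) := ⋃ n, (F n : Set (StrongDual 𝕜 C(K, 𝕜))) with hG₀
  have hG₀c : G₀.Countable := countable_iUnion fun n => (F n).countable_toSet
  have hG₀s : ∀ a : G₀, ∃ i, (a : StrongDual 𝕜 C(K, 𝕜)) ∈ gens b {i} := by
    rintro ⟨a, ha⟩
    obtain ⟨n, hn⟩ := mem_iUnion.1 ha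
    obtain ⟨i, _, e, he, h⟩ := hF n hn
    exact ⟨i, i, rfl, e, he, h⟩
  choose idx hidx using hG₀s
  set C : Set ι := range idx with hC
  have hCc : C.Countable := by
    have := hG₀c.to_subtype
    exact countable_range idx
  have hfC : f ∈ (Submodule.span 𝕜 (gens b C)).topologicalClosure := by
    rw [← SetLike.mem_coe, Submodule.topologicalClosure_coe]
    refine mem_closure_iff_seq_limit.2 ⟨y, fun n => ?_, hlim⟩
    refine Submodule.span_mono ?_ (hyF n)
    intro a ha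
    have ha' : a ∈ G₀ := mem_iUnion.2 ⟨n, ha⟩
    obtain ⟨i, hi, e, he, h⟩ := hidx ⟨a, ha'⟩
    refine ⟨i, ?_, e, he, h⟩
    rw [mem_singleton_iff] at hi
    rw [hi]
    exact mem_range_self _
  -- the projection
  have hdisj : Disjoint C Cᶜ := disjoint_compl_right
  obtain ⟨q, hq1, hq2, hq3, hq4⟩ := exists_proj (𝕜 := 𝕜) (X := StrongDual 𝕜 C(K, 𝕜))
    (A := (Submodule.span 𝕜 (gens b C)).topologicalClosure)
    (B := (Submodule.span 𝕜 (gens b Cᶜ)).topologicalClosure)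
    (Submodule.isClosed_topologicalClosure _) (Submodule.isClosed_topologicalClosure _)
    one_pos (fun a ha c hc => by
      rw [one_mul]
      exact norm_le_span b hreg hs hdisj ha hc) (by
      intro x
      refine closure_mono ?_ (hd x)
      intro y hy
      have h1 : Submodule.span 𝕜 (gens b univ) ≤
          (Submodule.span 𝕜 (gens b C)).topologicalClosure ⊔
          (Submodule.span 𝕜 (gens b Cᶜ)).topologicalClosure := by
        refine Submodule.span_le.2 fun g hg => ?_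
        obtain ⟨i, _, e, he, h⟩ := hg
        by_cases hi : i ∈ C
        · exact Submodule.mem_sup_left (Submodule.le_topologicalClosure _
            (Submodule.subset_span ⟨i, hi, e, he, h⟩))
        · exact Submodule.mem_sup_right (Submodule.le_topologicalClosure _
            (Submodule.subset_span ⟨i, hi, e, he, h⟩))
      obtain ⟨a, ha, c, hc, hac⟩ := Submodule.mem_sup.1 (h1 hy)
      exact ⟨a, ha, c, hc, hac⟩)
  have hqf : q f = f := hq2 f hfC
  have key : ∀ h : C(K, 𝕜), ‖h‖ ≤ 1 → ‖f h‖ ≤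
      sSup {r : ℝ | ∃ Λ ∈ dd b, ‖Λ‖ ≤ 1 ∧ r = ‖Λ f‖} := by
    intro h hh
    let Λ : StrongDual 𝕜 (StrongDual 𝕜 C(K, 𝕜)) :=
      (NormedSpace.inclusionInDoubleDual 𝕜 C(K, 𝕜) h).comp q
    have hΛ : ∀ g, Λ g = q g h := fun g => rfl
    refine le_csSup hbdd ⟨Λ, ?_, ?_, ?_⟩
    · -- countability
      have hsub : {x | x ∈ gens b univ ∧ Λ x ≠ 0} ⊆ ⋃ i ∈ C, (fun e : Lp 𝕜 2 (μ i) => act (μ i) e) ''
          {e | e ∈ b i ∧ inner 𝕜 e (ContinuousMap.toLp 2 (μ i) 𝕜 h) ≠ 0} := by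
        rintro x ⟨⟨i, _, e, he, hx⟩, hne⟩
        by_cases hi : i ∈ C
        · refine mem_iUnion₂.2 ⟨i, hi, e, ⟨he, fun h0 => hne ?_⟩, hx⟩
          rw [hΛ, hq2 x (Submodule.le_topologicalClosure _
            (Submodule.subset_span ⟨i, hi, e, he, hx⟩)), ← hx, act_apply]
          exact h0
        · refine absurd ?_ hne
          rw [hΛ, hq3 x (Submodule.le_topologicalClosure _
            (Submodule.subset_span ⟨i, hi, e, he, hx⟩))]
          rfl
      refine Countable.mono hsub (hCc.biUnion fun i _ => Countable.image ?_ _)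
      have h1 := (hb i).inner_products_summable (x := ContinuousMap.toLp 2 (μ i) 𝕜 h)
      have h2 := h1.countable_support
      refine Countable.mono ?_ (h2.image ((↑) : b i → Lp 𝕜 2 (μ i)))
      rintro e ⟨he, hne⟩
      refine ⟨⟨e, he⟩, ?_, rfl⟩
      rw [Function.mem_support]
      exact pow_ne_zero 2 (norm_ne_zero_iff.2 hne)
    · refine ContinuousLinearMap.opNorm_le_bound _ zero_le_one fun g => ?_
      rw [hΛ, one_mul]
      have h1 := (q g).le_opNorm h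
      have h2 := hq1 g
      rw [inv_one, one_mul] at h2
      calc ‖q g h‖ ≤ ‖q g‖ * ‖h‖ := h1
        _ ≤ ‖g‖ * 1 := mul_le_mul h2 hh (norm_nonneg _) (norm_nonneg _)
        _ = ‖g‖ := mul_one _
    · rw [hΛ, hqf]
  rw [one_mul]
  have hnn : 0 ≤ sSup {r : ℝ | ∃ Λ ∈ dd b, ‖Λ‖ ≤ 1 ∧ r = ‖Λ f‖} :=
    (norm_nonneg _).trans (key 0 (by simp))
  refine f.opNorm_le_bound hnn fun h => ?_
  by_cases hh : h = 0
  · subst hh
    simp
  · have hn : 0 < ‖h‖ := norm_pos_iff.2 hh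
    have h1 := key ((((‖h‖ : ℝ) : 𝕜)⁻¹) • h) (by
      rw [norm_smul, norm_inv, RCLike.norm_ofReal, abs_norm, inv_mul_cancel₀ hn.ne'])
    rw [map_smul, norm_smul, norm_inv, RCLike.norm_ofReal, abs_norm, inv_mul_le_iff₀ hn] at h1
    rw [mul_comm]
    exact h1

end

/-- The dual of `C(K)` has a projectional skeleton. -/
theorem ck_dual_skeleton {𝕜 : Type u} [RCLike 𝕜] (K : Type v) [TopologicalSpace K] [CompactSpace K]
    [T2Space K] :
    ∃ (Γ : Type (max u v)) (_ : PartialOrder Γ)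
      (P : Γ → StrongDual 𝕜 C(K, 𝕜) →L[𝕜] StrongDual 𝕜 C(K, 𝕜)),
      IsProjectionalSkeleton (𝕜 := 𝕜) (Z := StrongDual 𝕜 C(K, 𝕜)) P := by
  borelize K
  obtain ⟨𝓜, h𝓜, hmax⟩ := exists_fam (K := K)
  have hfin : ∀ i : 𝓜, IsFiniteMeasure (i : Measure K) := fun i => (h𝓜.1 i i.2).1
  have hreg : ∀ i : 𝓜, (i : Measure K).InnerRegular := fun i => (h𝓜.1 i i.2).2.1
  have hs : ∀ i j : 𝓜, i ≠ j → (i : Measure K) ⟂ₘ (j : Measure K) := fun i j hij =>
    h𝓜.2 i.2 j.2 fun h => hij (Subtype.ext h)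
  choose b hb using fun i : 𝓜 => exists_hilbertBasis 𝕜 (Lp 𝕜 2 (i : Measure K))
  have horth : ∀ i : 𝓜, Orthonormal 𝕜 ((↑) : b i → Lp 𝕜 2 (i : Measure K)) := by
    intro i
    obtain ⟨B, hB⟩ := hb i
    rw [← hB]
    exact B.orthonormal
  have hspan : ∀ i : 𝓜, Dense (Submodule.span 𝕜 (b i) : Set (Lp 𝕜 2 (i : Measure K))) := by
    intro i
    obtain ⟨B, hB⟩ := hb i
    have h1 := B.dense_span
    rw [hB, Subtype.range_coe] at h1
    exact Submodule.dense_iff_topologicalClosure_eq_top.2 h1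
  have hd : Dense (Submodule.span 𝕜 (gens b univ) : Set (StrongDual 𝕜 C(K, 𝕜))) := by
    rw [Submodule.dense_iff_topologicalClosure_eq_top, Submodule.eq_top_iff']
    refine mem_of_fam (Submodule.isClosed_topologicalClosure _) h𝓜 hmax fun κ hκ w hw f hf => ?_
    have hκf : IsFiniteMeasure κ := (h𝓜.1 κ hκ).1
    obtain ⟨u, rfl⟩ := act_eq_of_rep hw hf
    have hu := hspan ⟨κ, hκ⟩ u
    have hcl : IsClosed {u : Lp 𝕜 2 κ | act κ u ∈
        (Submodule.span 𝕜 (gens b univ)).topologicalClosure} :=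
      (Submodule.isClosed_topologicalClosure _).preimage (act_continuous κ)
    refine hcl.closure_subset_iff.2 ?_ hu
    intro u hu
    induction hu using Submodule.span_induction with
    | mem x hx =>
      exact Submodule.le_topologicalClosure _ (Submodule.subset_span ⟨⟨κ, hκ⟩, mem_univ _, x, hx, rfl⟩)
    | zero =>
      have : act κ (0 : Lp 𝕜 2 κ) = 0 := by
        ext h
        rw [act_apply, inner_zero_left]
        rfl
      change act κ (0 : Lp 𝕜 2 κ) ∈ (Submodule.span 𝕜 (gens b univ)).topologicalClosure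
      rw [this]
      exact Submodule.zero_mem _
    | add x y _ _ hx hy =>
      have : act κ (x + y) = act κ x + act κ y := by
        ext h
        rw [act_apply, inner_add_left]
        rfl
      change act κ (x + y) ∈ (Submodule.span 𝕜 (gens b univ)).topologicalClosure
      rw [this]
      exact Submodule.add_mem _ hx hy
    | smul c x _ hx =>
      have : act κ (c • x) = (starRingEnd 𝕜) c • act κ x := by
        ext h
        rw [act_apply, inner_smul_left]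
        rfl
      change act κ (c • x) ∈ (Submodule.span 𝕜 (gens b univ)).topologicalClosure
      rw [this]
      exact Submodule.smul_mem _ _ hx
  have hN := dd_norming b hreg hs horth hd
  obtain ⟨c, M, hM, Q, hQ, -⟩ := sigma_projFam (𝕜 := 𝕜) (X := StrongDual 𝕜 C(K, 𝕜)) hN
    (G := gens b univ) hd fun z hz => hz
  exact ⟨_, _, _, skeleton_of_projFamC hM hQ⟩

/-- The extension theorem for quotients of `C(K)`. -/
theorem ck_quotient_extension {𝕜 : Type u} [RCLike 𝕜] {K : Type w} [TopologicalSpace K]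
    [CompactSpace K] [T2Space K] {X : Type v} [NormedAddCommGroup X] [NormedSpace 𝕜 X]
    [CompleteSpace X] (q : C(K, 𝕜) →L[𝕜] X) (hq : Function.Surjective q)
    {Y : Submodule 𝕜 (StrongDual 𝕜 X)} {Φ : Y → Set X} (hΦ : IsProjectionalGenerator Y Φ) :
    ∃ Ψ : hull Y → Set X, IsProjectionalGenerator (hull Y) Ψ ∧
      ∀ y : Y, Ψ ⟨y, le_hull Y y.2⟩ = Φ y := by
  obtain ⟨Γ, _, P, hP⟩ := ck_dual_skeleton (𝕜 := 𝕜) K
  -- open mapping
  obtain ⟨C, hC, hCq⟩ := q.exists_preimage_norm_le hq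
  let T : StrongDual 𝕜 X →L[𝕜] StrongDual 𝕜 C(K, 𝕜) :=
    (ContinuousLinearMap.compL 𝕜 C(K, 𝕜) X 𝕜).flip q
  have hT : ∀ f h, T f h = f (q h) := fun f h => rfl
  refine skeleton_extension hP hΦ (T.comp (hull Y).subtypeL) (κ := C⁻¹) (inv_pos.2 hC) ?_
  intro z
  change C⁻¹ * ‖(z : StrongDual 𝕜 X)‖ ≤ ‖T z‖
  rw [inv_mul_le_iff₀ hC]
  refine (z : StrongDual 𝕜 X).opNorm_le_bound (by positivity) fun x => ?_
  obtain ⟨h, rfl, hh⟩ := hCq x
  rw [← hT]
  calc ‖T z h‖ ≤ ‖T z‖ * ‖h‖ := (T z).le_opNorm h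
    _ ≤ ‖T z‖ * (C * ‖q h‖) := mul_le_mul_of_nonneg_left hh (norm_nonneg _)
    _ = C * ‖T z‖ * ‖q h‖ := by ring

end Pool.Agent.Work.MP_6c3bcd_an.CK
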