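import Pool.Agent.Work.MP_6c3bcd_an.CK.Sep

/-!
# Functionals with square integrable densities
-/

namespace Pool.Agent.Work.MP_6c3bcd_an.CK

open MeasureTheory Set Topology
open scoped NNReal ENNReal CompactlySupported

variable {𝕜 : Type*} [RCLike 𝕜] {K : Type*} [TopologicalSpace K] [CompactSpace K]
  [MeasurableSpace K] [BorelSpace K]

/-- The functional `h ↦ ⟪u, h⟫` on `C(K)`. -/
noncomputable def act (μ : Measure K) [IsFiniteMeasure μ] (u : Lp 𝕜 2 μ) :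
    StrongDual 𝕜 C(K, 𝕜) :=
  (innerSL 𝕜 u).comp (ContinuousMap.toLp 2 μ 𝕜)

theorem act_apply (μ : Measure K) [IsFiniteMeasure μ] (u : Lp 𝕜 2 μ) (h : C(K, 𝕜)) :
    act μ u h = inner 𝕜 u (ContinuousMap.toLp 2 μ 𝕜 h) := rfl

theorem act_continuous (μ : Measure K) [IsFiniteMeasure μ] :
    Continuous (act μ : Lp 𝕜 2 μ → StrongDual 𝕜 C(K, 𝕜)) := by
  unfold act
  exact ((innerSL 𝕜).continuous).clm_comp continuous_const

theorem act_eq_of_rep {μ : Measure K} [IsFiniteMeasure μ] {w : K → 𝕜} (hw : MemLp w 2 μ)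
    {f : StrongDual 𝕜 C(K, 𝕜)} (hf : Rep μ w f) : ∃ u : Lp 𝕜 2 μ, f = act μ u := by
  have hw' : MemLp (fun x => (starRingEnd 𝕜) (w x)) 2 μ := by
    exact hw.star
  refine ⟨hw'.toLp _, ?_⟩
  ext h
  rw [hf.2 h, act_apply, L2.inner_def]
  refine integral_congr_ae ?_
  filter_upwards [hw'.coeFn_toLp, ContinuousMap.coeFn_toLp (p := 2) (𝕜 := 𝕜) μ h] with x hx1 hx2
  rw [hx1, hx2, RCLike.inner_apply, RCLike.conj_conj]

theorem norm_sq_toLp (μ : Measure K) [IsFiniteMeasure μ] (h : C(K, 𝕜)) :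
    ‖ContinuousMap.toLp 2 μ 𝕜 h‖ ^ 2 = ∫ x, ‖h x‖ ^ 2 ∂μ := by
  have h1 : (((‖ContinuousMap.toLp 2 μ 𝕜 h‖ ^ 2 : ℝ)) : 𝕜) = ((∫ x, ‖h x‖ ^ 2 ∂μ : ℝ) : 𝕜) := by
    rw [← integral_ofReal]
    push_cast
    rw [← inner_self_eq_norm_sq_to_K (𝕜 := 𝕜), L2.inner_def]
    refine integral_congr_ae ?_
    filter_upwards [ContinuousMap.coeFn_toLp (p := 2) (𝕜 := 𝕜) μ h] with x hx
    rw [hx, inner_self_eq_norm_sq_to_K]
  exact RCLike.ofReal_injective h1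

/-- The product of a real function and a scalar function. -/
noncomputable def cut (φ : C(K, ℝ)) (h : C(K, 𝕜)) : C(K, 𝕜) where
  toFun x := (φ x : 𝕜) * h x
  continuous_toFun := (RCLike.continuous_ofReal.comp φ.continuous).mul h.continuous

omit [CompactSpace K] [MeasurableSpace K] [BorelSpace K] in
theorem cut_apply (φ : C(K, ℝ)) (h : C(K, 𝕜)) (x : K) : cut φ h x = (φ x : 𝕜) * h x := rfl

omit [CompactSpace K] [MeasurableSpace K] [BorelSpace K] in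
theorem cut_add_cut (φ : C(K, ℝ)) (h : C(K, 𝕜)) : cut φ h + cut (1 - φ) h = h := by
  ext x
  change (φ x : 𝕜) * h x + ((1 - φ x : ℝ) : 𝕜) * h x = h x
  rw [← add_mul, ← RCLike.ofReal_add, add_sub_cancel, RCLike.ofReal_one, one_mul]

omit [MeasurableSpace K] [BorelSpace K] in
theorem norm_cut_apply_le {φ : C(K, ℝ)} (hφ : ∀ x, 0 ≤ φ x ∧ φ x ≤ 1) {h : C(K, 𝕜)}
    (hh : ‖h‖ ≤ 1) (x : K) : ‖cut φ h x‖ ≤ φ x := by
  rw [cut_apply, norm_mul, RCLike.norm_ofReal, abs_of_nonneg (hφ x).1]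
  exact mul_le_of_le_one_right (hφ x).1 ((h.norm_coe_le_norm x).trans hh)

omit [MeasurableSpace K] [BorelSpace K] in
theorem norm_cut_le {φ : C(K, ℝ)} (hφ : ∀ x, 0 ≤ φ x ∧ φ x ≤ 1) {h : C(K, 𝕜)}
    (hh : ‖h‖ ≤ 1) : ‖cut φ h‖ ≤ 1 :=
  (ContinuousMap.norm_le _ zero_le_one).2 fun x => (norm_cut_apply_le hφ hh x).trans (hφ x).2

/-- The functional `a` is small on functions which are small in mean with respect to all members
of `F`. -/
def Sm (a : StrongDual 𝕜 C(K, 𝕜)) (F : Finset (Measure K)) : Prop :=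
  ∀ ε : ℝ, 0 < ε → ∃ δ : ℝ, 0 < δ ∧ ∀ φ : C(K, ℝ), (∀ x, 0 ≤ φ x ∧ φ x ≤ 1) →
    (∀ μ ∈ F, ∫ x, φ x ∂μ ≤ δ) → ∀ h : C(K, 𝕜), ‖h‖ ≤ 1 → ‖a (cut φ h)‖ ≤ ε

theorem sm_act (μ : Measure K) [IsFiniteMeasure μ] (u : Lp 𝕜 2 μ) : Sm (act μ u) {μ} := by
  intro ε hε
  have hu : 0 < ‖u‖ + 1 := by positivity
  refine ⟨(ε / (‖u‖ + 1)) ^ 2, by positivity, fun φ hφ hint h hh => ?_⟩
  have h1 := hint μ (Finset.mem_singleton_self μ)
  rw [act_apply]
  refine (norm_inner_le_norm _ _).trans ?_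
  have h2 : ‖ContinuousMap.toLp 2 μ 𝕜 (cut φ h)‖ ≤ ε / (‖u‖ + 1) := by
    refine abs_le_of_sq_le_sq' ?_ (by positivity) |>.2
    rw [norm_sq_toLp]
    refine le_trans (integral_mono ?_ ?_ fun x => ?_) h1
    · refine Integrable.of_bound ?_ 1 (Filter.Eventually.of_forall fun x => ?_)
      · exact ((cut φ h).continuous.norm.pow 2).measurable.aestronglyMeasurable
      · have h3 := (norm_cut_apply_le hφ hh x).trans (hφ x).2
        rw [norm_pow, norm_norm]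
        exact pow_le_one₀ (norm_nonneg _) h3
    · refine Integrable.of_bound φ.continuous.measurable.aestronglyMeasurable 1
        (Filter.Eventually.of_forall fun x => ?_)
      rw [Real.norm_eq_abs, abs_of_nonneg (hφ x).1]
      exact (hφ x).2
    · change ‖cut φ h x‖ ^ 2 ≤ φ x
      have h3 := norm_cut_apply_le hφ hh x
      have h4 := (hφ x).2
      have h5 := (hφ x).1
      calc ‖cut φ h x‖ ^ 2 ≤ φ x ^ 2 := pow_le_pow_left₀ (norm_nonneg _) h3 2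
        _ ≤ φ x := by nlinarith
  calc ‖u‖ * ‖ContinuousMap.toLp 2 μ 𝕜 (cut φ h)‖ ≤ (‖u‖ + 1) * (ε / (‖u‖ + 1)) :=
        mul_le_mul (by linarith) h2 (norm_nonneg _) hu.le
    _ = ε := by field_simp

omit [BorelSpace K] in
theorem Sm.mono {a : StrongDual 𝕜 C(K, 𝕜)} {F F' : Finset (Measure K)} (h : Sm a F)
    (hF : F ⊆ F') : Sm a F' := by
  intro ε hε
  obtain ⟨δ, hδ, h1⟩ := h ε hε
  exact ⟨δ, hδ, fun φ hφ hint u hu => h1 φ hφ (fun μ hμ => hint μ (hF hμ)) u hu⟩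

omit [BorelSpace K] in
theorem sm_zero : Sm (0 : StrongDual 𝕜 C(K, 𝕜)) (∅ : Finset (Measure K)) := by
  intro ε hε
  refine ⟨1, one_pos, fun φ _ _ h _ => ?_⟩
  simpa using hε.le

omit [BorelSpace K] in
theorem Sm.add [DecidableEq (Measure K)] {a b : StrongDual 𝕜 C(K, 𝕜)} {F F' : Finset (Measure K)}
    (ha : Sm a F) (hb : Sm b F') : Sm (a + b) (F ∪ F') := by
  intro ε hε
  obtain ⟨δ, hδ, h1⟩ := ha (ε / 2) (by positivity)
  obtain ⟨δ', hδ', h2⟩ := hb (ε / 2) (by positivity)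
  refine ⟨min δ δ', lt_min hδ hδ', fun φ hφ hint u hu => ?_⟩
  have h3 := h1 φ hφ (fun μ hμ => (hint μ (Finset.mem_union_left _ hμ)).trans (min_le_left _ _)) u hu
  have h4 := h2 φ hφ (fun μ hμ => (hint μ (Finset.mem_union_right _ hμ)).trans
    (min_le_right _ _)) u hu
  rw [add_apply]
  refine (norm_add_le _ _).trans ?_
  linarith

omit [BorelSpace K] in
theorem Sm.smul {a : StrongDual 𝕜 C(K, 𝕜)} {F : Finset (Measure K)}
    (ha : Sm a F) (c : 𝕜) : Sm (c • a) F := by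
  intro ε hε
  have hc : 0 < ‖c‖ + 1 := by positivity
  obtain ⟨δ, hδ, h1⟩ := ha (ε / (‖c‖ + 1)) (by positivity)
  refine ⟨δ, hδ, fun φ hφ hint u hu => ?_⟩
  have h3 := h1 φ hφ hint u hu
  change ‖c • a (cut φ u)‖ ≤ ε
  rw [norm_smul]
  calc ‖c‖ * ‖a (cut φ u)‖ ≤ (‖c‖ + 1) * (ε / (‖c‖ + 1)) :=
        mul_le_mul (by linarith) h3 (norm_nonneg _) hc.le
    _ = ε := by field_simp

/-- Functionals carried by mutually singular measures are disjoint. -/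
theorem norm_le_of_sm [T2Space K] {a b : StrongDual 𝕜 C(K, 𝕜)} {F F' : Finset (Measure K)}
    (hF : ∀ μ ∈ F, IsFiniteMeasure μ ∧ μ.InnerRegular)
    (hF' : ∀ μ ∈ F', IsFiniteMeasure μ ∧ μ.InnerRegular)
    (hs : ∀ μ ∈ F, ∀ μ' ∈ F', μ ⟂ₘ μ') (ha : Sm a F) (hb : Sm b F') : ‖a‖ ≤ ‖a + b‖ := by
  have key : ∀ h : C(K, 𝕜), ‖h‖ ≤ 1 → ‖a h‖ ≤ ‖a + b‖ := by
    intro h hh
    refine le_of_forall_pos_le_add fun ε hε => ?_
    obtain ⟨δ, hδ, h1⟩ := ha (ε / 2) (by positivity)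
    obtain ⟨δ', hδ', h2⟩ := hb (ε / 2) (by positivity)
    obtain ⟨φ, hφ, hφ1, hφ2⟩ := exists_sep F F' hF hF' hs (lt_min hδ hδ')
    have h3 := h1 (1 - φ) (fun x => ⟨by
        change 0 ≤ 1 - φ x
        linarith [(hφ x).2], by
        change 1 - φ x ≤ 1
        linarith [(hφ x).1]⟩) (fun μ hμ => (hφ1 μ hμ).trans (min_le_left _ _)) h hh
    have h4 := h2 φ hφ (fun μ hμ => (hφ2 μ hμ).trans (min_le_right _ _)) h hh
    have h5 : ‖(a + b) (cut φ h)‖ ≤ ‖a + b‖ := by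
      refine ((a + b).le_opNorm _).trans ?_
      exact mul_le_of_le_one_right (norm_nonneg _) (norm_cut_le hφ hh)
    have e : a h = (a + b) (cut φ h) - b (cut φ h) + a (cut (1 - φ) h) := by
      rw [add_apply]
      have : a h = a (cut φ h) + a (cut (1 - φ) h) := by
        rw [← map_add, cut_add_cut]
      rw [this]
      ring
    rw [e]
    have h6 := norm_add_le ((a + b) (cut φ h) - b (cut φ h)) (a (cut (1 - φ) h))
    have h7 := norm_sub_le ((a + b) (cut φ h)) (b (cut φ h))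
    linarith
  refine a.opNorm_le_bound (norm_nonneg _) fun h => ?_
  by_cases hh : h = 0
  · subst hh
    simp
  · have hn : 0 < ‖h‖ := norm_pos_iff.2 hh
    have h1 := key ((((‖h‖ : ℝ) : 𝕜)⁻¹) • h) (by
      rw [norm_smul, norm_inv, RCLike.norm_ofReal, abs_norm, inv_mul_cancel₀ hn.ne'])
    rw [map_smul, norm_smul, norm_inv, RCLike.norm_ofReal, abs_norm, inv_mul_le_iff₀ hn] at h1
    linarith [h1, mul_comm ‖h‖ ‖a + b‖]

end Pool.Agent.Work.MP_6c3bcd_an.CK
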