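import Mathlib

/-!
# Every functional on `C(K)` is dominated by a finite regular measure
-/

namespace Pool.Agent.Work.MP_6c3bcd_an.CK

open MeasureTheory Set Topology
open scoped NNReal ENNReal CompactlySupported

variable {𝕜 : Type*} [RCLike 𝕜] {K : Type*} [TopologicalSpace K] [CompactSpace K]

/-- The absolute values of `f` on the functions dominated by `g`. -/
def vals (f : StrongDual 𝕜 C(K, 𝕜)) (g : K → ℝ≥0) : Set ℝ≥0 :=
  {r | ∃ h : C(K, 𝕜), (∀ x, ‖h x‖ ≤ g x) ∧ ‖f h‖₊ = r}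

/-- The total variation of `f` on `g`. -/
noncomputable def tv (f : StrongDual 𝕜 C(K, 𝕜)) (g : K → ℝ≥0) : ℝ≥0 := sSup (vals f g)

omit [CompactSpace K] in
theorem vals_nonempty (f : StrongDual 𝕜 C(K, 𝕜)) (g : K → ℝ≥0) : (vals f g).Nonempty :=
  ⟨0, 0, fun x => by simp, by simp⟩

theorem vals_bdd (f : StrongDual 𝕜 C(K, 𝕜)) (g : C_c(K, ℝ≥0)) : BddAbove (vals f g) := by
  obtain ⟨c, hc⟩ := (isCompact_range g.continuous).bddAbove
  refine ⟨‖f‖₊ * c, ?_⟩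
  rintro _ ⟨h, hh, rfl⟩
  refine (f.le_opNNNorm h).trans (mul_le_mul_right ?_ _)
  rw [← NNReal.coe_le_coe, coe_nnnorm]
  refine (ContinuousMap.norm_le h c.2).2 fun x => (hh x).trans ?_
  exact NNReal.coe_le_coe.2 (hc (mem_range_self x))

theorem le_tv (f : StrongDual 𝕜 C(K, 𝕜)) (g : C_c(K, ℝ≥0)) {h : C(K, 𝕜)}
    (hh : ∀ x, ‖h x‖ ≤ g x) : ‖f h‖₊ ≤ tv f g :=
  le_csSup (vals_bdd f g) ⟨h, hh, rfl⟩

omit [CompactSpace K] in
theorem tv_le (f : StrongDual 𝕜 C(K, 𝕜)) (g : K → ℝ≥0) {c : ℝ≥0}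
    (h : ∀ h : C(K, 𝕜), (∀ x, ‖h x‖ ≤ g x) → ‖f h‖₊ ≤ c) : tv f g ≤ c := by
  refine csSup_le (vals_nonempty f g) ?_
  rintro _ ⟨u, hu, rfl⟩
  exact h u hu

theorem exists_rot (z : 𝕜) : ∃ c : 𝕜, ‖c‖ ≤ 1 ∧ c * z = ((‖z‖ : ℝ) : 𝕜) := by
  by_cases hz : z = 0
  · exact ⟨0, by simp, by simp [hz]⟩
  · refine ⟨(starRingEnd 𝕜) z / ((‖z‖ : ℝ) : 𝕜), ?_, ?_⟩
    · rw [norm_div, RCLike.norm_conj, RCLike.norm_ofReal, abs_norm, div_self (norm_ne_zero_iff.2 hz)]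
    · have h1 : ((‖z‖ : ℝ) : 𝕜) ≠ 0 := by
        rw [Ne, RCLike.ofReal_eq_zero]
        exact norm_ne_zero_iff.2 hz
      rw [div_mul_eq_mul_div, RCLike.conj_mul, div_eq_iff h1]
      ring

theorem tv_add_ge (f : StrongDual 𝕜 C(K, 𝕜)) (g₁ g₂ : C_c(K, ℝ≥0)) :
    tv f g₁ + tv f g₂ ≤ tv f (g₁ + g₂ : C_c(K, ℝ≥0)) := by
  have key : ∀ h₁ h₂ : C(K, 𝕜), (∀ x, ‖h₁ x‖ ≤ g₁ x) → (∀ x, ‖h₂ x‖ ≤ g₂ x) →
      ‖f h₁‖₊ + ‖f h₂‖₊ ≤ tv f (g₁ + g₂ : C_c(K, ℝ≥0)) := by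
    intro h₁ h₂ hh₁ hh₂
    obtain ⟨c₁, hc₁, hf₁⟩ := exists_rot (f h₁)
    obtain ⟨c₂, hc₂, hf₂⟩ := exists_rot (f h₂)
    have h3 : ∀ x, ‖(c₁ • h₁ + c₂ • h₂) x‖ ≤ (g₁ + g₂ : C_c(K, ℝ≥0)) x := by
      intro x
      have e1 : (c₁ • h₁ + c₂ • h₂) x = c₁ * h₁ x + c₂ * h₂ x := rfl
      have e2 : ((g₁ + g₂ : C_c(K, ℝ≥0)) x : ℝ) = (g₁ x : ℝ) + g₂ x := by
        simp
      rw [e1, e2]
      refine (norm_add_le _ _).trans (add_le_add ?_ ?_)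
      · rw [norm_mul]
        exact (mul_le_of_le_one_left (norm_nonneg _) hc₁).trans (hh₁ x)
      · rw [norm_mul]
        exact (mul_le_of_le_one_left (norm_nonneg _) hc₂).trans (hh₂ x)
    have h4 := le_tv f _ h3
    have e : f (c₁ • h₁ + c₂ • h₂) = (((‖f h₁‖ + ‖f h₂‖ : ℝ)) : 𝕜) := by
      rw [map_add, map_smul, map_smul, smul_eq_mul, smul_eq_mul, hf₁, hf₂]
      push_cast
      rfl
    have e' : ‖f (c₁ • h₁ + c₂ • h₂)‖₊ = ‖f h₁‖₊ + ‖f h₂‖₊ := by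
      rw [← NNReal.coe_inj, coe_nnnorm, e, RCLike.norm_ofReal, NNReal.coe_add, coe_nnnorm,
        coe_nnnorm, abs_of_nonneg (by positivity)]
    rwa [e'] at h4
  have h1 : ∀ h₂ : C(K, 𝕜), (∀ x, ‖h₂ x‖ ≤ g₂ x) →
      tv f g₁ ≤ tv f (g₁ + g₂ : C_c(K, ℝ≥0)) - ‖f h₂‖₊ := by
    intro h₂ hh₂
    refine tv_le f _ fun h₁ hh₁ => ?_
    exact le_tsub_of_add_le_right (key h₁ h₂ hh₁ hh₂)
  have h2 : tv f g₂ ≤ tv f (g₁ + g₂ : C_c(K, ℝ≥0)) - tv f g₁ := by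
    refine tv_le f _ fun h₂ hh₂ => ?_
    have h3 := h1 h₂ hh₂
    have h4 : ‖f h₂‖₊ ≤ tv f (g₁ + g₂ : C_c(K, ℝ≥0)) :=
      le_trans (le_add_of_nonneg_left (zero_le)) (key 0 h₂ (fun x => by simp) hh₂)
    rw [le_tsub_iff_right h4] at h3
    exact le_tsub_of_add_le_left h3
  have h5 : tv f g₁ ≤ tv f (g₁ + g₂ : C_c(K, ℝ≥0)) := by
    refine tv_le f _ fun h₁ hh₁ => ?_
    exact le_trans (le_add_of_nonneg_right (zero_le)) (key h₁ 0 hh₁ (fun x => by simp))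
  rw [le_tsub_iff_left h5] at h2
  exact h2

theorem tv_add_le (f : StrongDual 𝕜 C(K, 𝕜)) (g₁ g₂ : C_c(K, ℝ≥0)) :
    tv f (g₁ + g₂ : C_c(K, ℝ≥0)) ≤ tv f g₁ + tv f g₂ := by
  refine tv_le f _ fun h hh => ?_
  have hh' : ∀ x, ‖h x‖ ≤ (g₁ x : ℝ) + g₂ x := by
    intro x
    have := hh x
    simpa using this
  refine le_of_forall_pos_le_add fun ε hε => ?_
  set δ : ℝ≥0 := ε / (‖f‖₊ + 1) with hδ
  have hδ0 : 0 < δ := by positivity
  have hden : ∀ x, (0 : ℝ) < (g₁ x : ℝ) + g₂ x + δ := fun x => by positivity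
  let q : C(K, ℝ≥0) → C(K, 𝕜) := fun g =>
    { toFun := fun x => h x * (((g x : ℝ) / ((g₁ x : ℝ) + g₂ x + δ) : ℝ) : 𝕜)
      continuous_toFun := by
        refine h.continuous.mul (RCLike.continuous_ofReal.comp ?_)
        refine Continuous.div ?_ ?_ fun x => (hden x).ne'
        · fun_prop
        · have h1 : Continuous fun x => (g₁ x : ℝ) :=
            NNReal.continuous_coe.comp g₁.continuous
          have h2 : Continuous fun x => (g₂ x : ℝ) :=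
            NNReal.continuous_coe.comp g₂.continuous
          exact (h1.add h2).add continuous_const }
  have hq : ∀ g : C(K, ℝ≥0), ∀ x, ‖q g x‖ ≤ g x := by
    intro g x
    change ‖h x * (((g x : ℝ) / ((g₁ x : ℝ) + g₂ x + δ) : ℝ) : 𝕜)‖ ≤ g x
    rw [norm_mul, RCLike.norm_ofReal, abs_of_nonneg (by have := hden x; positivity),
      mul_div_assoc', div_le_iff₀ (hden x), mul_comm]
    refine mul_le_mul_of_nonneg_left ?_ (g x).2
    have := hh' x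
    have := δ.2
    change ‖h x‖ ≤ (g₁ x : ℝ) + g₂ x + δ
    have h3 : (0 : ℝ) ≤ δ := δ.2
    linarith
  have e : h = q g₁.toContinuousMap + q g₂.toContinuousMap + q ⟨fun _ => δ, continuous_const⟩ := by
    ext x
    change h x = h x * (((g₁ x : ℝ) / ((g₁ x : ℝ) + g₂ x + δ) : ℝ) : 𝕜) +
      h x * (((g₂ x : ℝ) / ((g₁ x : ℝ) + g₂ x + δ) : ℝ) : 𝕜) +
      h x * (((δ : ℝ) / ((g₁ x : ℝ) + g₂ x + δ) : ℝ) : 𝕜)
    rw [← mul_add, ← mul_add, ← RCLike.ofReal_add, ← RCLike.ofReal_add, ← add_div, ← add_div,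
      div_self (hden x).ne', RCLike.ofReal_one, mul_one]
  have h1 : ‖f (q g₁.toContinuousMap)‖₊ ≤ tv f g₁ := le_tv f g₁ (hq g₁.toContinuousMap)
  have h2 : ‖f (q g₂.toContinuousMap)‖₊ ≤ tv f g₂ := le_tv f g₂ (hq g₂.toContinuousMap)
  have h3 : ‖f (q ⟨fun _ => δ, continuous_const⟩)‖₊ ≤ ε := by
    refine (f.le_opNNNorm _).trans ?_
    have h4 : ‖q ⟨fun _ => δ, continuous_const⟩‖₊ ≤ δ := by
      rw [← NNReal.coe_le_coe, coe_nnnorm]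
      exact (ContinuousMap.norm_le _ δ.2).2 (hq ⟨fun _ => δ, continuous_const⟩)
    calc ‖f‖₊ * ‖q ⟨fun _ => δ, continuous_const⟩‖₊ ≤ (‖f‖₊ + 1) * δ :=
          mul_le_mul' (le_add_of_nonneg_right zero_le_one) h4
      _ = ε := by rw [hδ]; field_simp
  calc ‖f h‖₊ = ‖f (q g₁.toContinuousMap) + f (q g₂.toContinuousMap) +
        f (q ⟨fun _ => δ, continuous_const⟩)‖₊ := by rw [← map_add, ← map_add, ← e]
    _ ≤ ‖f (q g₁.toContinuousMap)‖₊ + ‖f (q g₂.toContinuousMap)‖₊ +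
        ‖f (q ⟨fun _ => δ, continuous_const⟩)‖₊ := by
          refine (nnnorm_add_le _ _).trans (add_le_add ?_ le_rfl)
          exact nnnorm_add_le _ _
    _ ≤ tv f g₁ + tv f g₂ + ε := add_le_add (add_le_add h1 h2) h3

theorem tv_smul (f : StrongDual 𝕜 C(K, 𝕜)) (c : ℝ≥0) (g : C_c(K, ℝ≥0)) :
    tv f (c • g : C_c(K, ℝ≥0)) = c * tv f g := by
  have hle : ∀ (c : ℝ≥0) (g : C_c(K, ℝ≥0)), c ≠ 0 →
      tv f (c • g : C_c(K, ℝ≥0)) ≤ c * tv f g := by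
    intro c g hc
    refine tv_le f _ fun h hh => ?_
    have hc' : ((c : ℝ) : 𝕜) ≠ 0 := by
      rw [Ne, RCLike.ofReal_eq_zero]
      exact NNReal.coe_ne_zero.2 hc
    have h1 : ∀ x, ‖((((c : ℝ) : 𝕜)⁻¹) • h) x‖ ≤ g x := by
      intro x
      have e1 : ((((c : ℝ) : 𝕜)⁻¹) • h) x = (((c : ℝ) : 𝕜)⁻¹) * h x := rfl
      have h2 := hh x
      have e2 : (((c • g : C_c(K, ℝ≥0)) x : ℝ≥0) : ℝ) = c * g x := by simp
      rw [e2] at h2
      rw [e1, norm_mul, norm_inv, RCLike.norm_ofReal, abs_of_nonneg (NNReal.coe_nonneg c),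
        inv_mul_le_iff₀ (NNReal.coe_pos.2 (pos_iff_ne_zero.2 hc))]
      exact h2
    have h2 := le_tv f g h1
    have e : f h = ((c : ℝ) : 𝕜) * f ((((c : ℝ) : 𝕜)⁻¹) • h) := by
      rw [map_smul, smul_eq_mul, ← mul_assoc, mul_inv_cancel₀ hc', one_mul]
    have e2 : ‖((c : ℝ) : 𝕜)‖₊ = c := by
      rw [← NNReal.coe_inj, coe_nnnorm, RCLike.norm_ofReal, abs_of_nonneg (NNReal.coe_nonneg c)]
    rw [e, nnnorm_mul, e2]
    exact mul_le_mul_right h2 _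
  by_cases hc : c = 0
  · subst hc
    rw [zero_smul, zero_mul]
    refine le_antisymm (tv_le f _ fun h hh => ?_) zero_le
    have : h = 0 := by
      ext x
      have := hh x
      simpa using this
    rw [this]
    simp
  · refine le_antisymm (hle c g hc) ?_
    have h1 := hle c⁻¹ (c • g) (inv_ne_zero hc)
    rw [smul_smul, inv_mul_cancel₀ hc, one_smul] at h1
    have h2 := mul_le_mul_right h1 c
    rwa [← mul_assoc, mul_inv_cancel₀ hc, one_mul] at h2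

/-- The total variation as a positive functional. -/
noncomputable def tvL (f : StrongDual 𝕜 C(K, 𝕜)) : C_c(K, ℝ≥0) →ₗ[ℝ≥0] ℝ≥0 where
  toFun g := tv f g
  map_add' g₁ g₂ := le_antisymm (tv_add_le f g₁ g₂) (tv_add_ge f g₁ g₂)
  map_smul' c g := tv_smul f c g

/-- Every functional on `C(K)` is dominated by a finite regular measure. -/
theorem exists_dom [T2Space K] [MeasurableSpace K] [BorelSpace K]
    (f : StrongDual 𝕜 C(K, 𝕜)) :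
    ∃ ν : Measure K, IsFiniteMeasure ν ∧ ν.Regular ∧ ∀ h : C(K, 𝕜), ‖f h‖ ≤ ∫ x, ‖h x‖ ∂ν := by
  refine ⟨NNRealRMK.rieszMeasure (tvL f), ?_, inferInstance, ?_⟩
  · have : IsFiniteMeasureOnCompacts (NNRealRMK.rieszMeasure (tvL f)) := inferInstance
    infer_instance
  · intro h
    let g : C_c(K, ℝ≥0) := ⟨⟨fun x => ‖h x‖₊, by fun_prop⟩, HasCompactSupport.of_compactSpace _⟩
    have h1 := NNRealRMK.integral_rieszMeasure (tvL f) g
    have h2 : ‖f h‖₊ ≤ tv f g := le_tv f g fun x => le_rfl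
    have h3 : ‖f h‖ ≤ ((tvL f g : ℝ≥0) : ℝ) := NNReal.coe_le_coe.2 h2
    rw [← h1] at h3
    exact h3

end Pool.Agent.Work.MP_6c3bcd_an.CK
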