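import Pool.Agent.Work.MP_6c3bcd_an.CK.Rep

/-!
# A maximal family of mutually singular measures carries all functionals
-/

namespace Pool.Agent.Work.MP_6c3bcd_an.CK

open MeasureTheory Set Topology
open scoped NNReal ENNReal CompactlySupported

variable {𝕜 : Type*} [RCLike 𝕜] {K : Type*} [TopologicalSpace K] [CompactSpace K]
  [MeasurableSpace K] [BorelSpace K]

omit [TopologicalSpace K] [CompactSpace K] [BorelSpace K] in
theorem integral_norm_eq_toReal {ν : Measure K} {v : K → 𝕜} (hv : AEStronglyMeasurable v ν) :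
    ∫ x, ‖v x‖ ∂ν = (eLpNorm v 1 ν).toReal := by
  rw [integral_norm_eq_lintegral_enorm hv, eLpNorm_one_eq_lintegral_enorm]

/-- Integrable densities are reached from square integrable ones. -/
theorem mem_of_integrable {μ : Measure K} [IsFiniteMeasure μ]
    {V : Submodule 𝕜 (StrongDual 𝕜 C(K, 𝕜))} (hV : IsClosed (V : Set (StrongDual 𝕜 C(K, 𝕜))))
    (hb : ∀ w : K → 𝕜, MemLp w 2 μ → ∀ f, Rep μ w f → f ∈ V) {v : K → 𝕜}
    {f : StrongDual 𝕜 C(K, 𝕜)} (hf : Rep μ v f) : f ∈ V := by
  have h1 : f ∈ closure (V : Set (StrongDual 𝕜 C(K, 𝕜))) := by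
    rw [Metric.mem_closure_iff]
    intro ε hε
    obtain ⟨g, hg, hg1⟩ := (memLp_one_iff_integrable.2 hf.1).exists_simpleFunc_eLpNorm_sub_lt
      (by norm_num) (ENNReal.ofReal_pos.2 hε).ne'
    have hgi : Integrable g μ := memLp_one_iff_integrable.1 hg1
    obtain ⟨f', hf'⟩ := exists_rep (ν := μ) (v := (g : K → 𝕜)) hgi
    refine ⟨f', hb g ?_ f' hf', ?_⟩
    · exact SimpleFunc.memLp_of_isFiniteMeasure g 2 μ
    · rw [dist_eq_norm]
      refine ((hf.sub hf').norm_le).trans_lt ?_
      rw [integral_norm_eq_toReal (hf.1.sub hgi).aestronglyMeasurable]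
      exact (ENNReal.toReal_lt_of_lt_ofReal hg)
  rwa [hV.closure_eq] at h1

/-- The measurable sets on which the functionals `v ν` are reached. -/
def Good (ν : Measure K) (V : Submodule 𝕜 (StrongDual 𝕜 C(K, 𝕜))) (S : Set K) : Prop :=
  MeasurableSet S ∧ ∀ v : K → 𝕜, Integrable v ν → ∀ f, Rep ν (S.indicator v) f → f ∈ V

variable {ν : Measure K} {V : Submodule 𝕜 (StrongDual 𝕜 C(K, 𝕜))}

theorem Good.union {S T : Set K} (hS : Good ν V S) (hT : Good ν V T) : Good ν V (S ∪ T) := by
  refine ⟨hS.1.union hT.1, fun v hv f hf => ?_⟩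
  obtain ⟨f₁, hf₁⟩ := exists_rep (ν := ν) (v := S.indicator v) (hv.indicator hS.1)
  obtain ⟨f₂, hf₂⟩ := exists_rep (ν := ν) (v := T.indicator (Sᶜ.indicator v))
    ((hv.indicator hS.1.compl).indicator hT.1)
  have e : f = f₁ + f₂ := by
    ext h
    rw [hf.2 h, (hf₁.add hf₂).2 h]
    refine integral_congr_ae (Filter.Eventually.of_forall fun x => ?_)
    by_cases hxS : x ∈ S
    · simp [hxS, indicator]
    · by_cases hxT : x ∈ T <;> simp [hxS, hxT, indicator]
  rw [e]
  exact V.add_mem (hS.2 v hv f₁ hf₁) (hT.2 _ (hv.indicator hS.1.compl) f₂ hf₂)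

theorem Good.iUnion (hV : IsClosed (V : Set (StrongDual 𝕜 C(K, 𝕜)))) {S : ℕ → Set K}
    (hmono : Monotone S) (hS : ∀ n, Good ν V (S n)) : Good ν V (⋃ n, S n) := by
  refine ⟨MeasurableSet.iUnion fun n => (hS n).1, fun v hv f hf => ?_⟩
  choose g hg using fun n => exists_rep (ν := ν) (v := (S n).indicator v) (hv.indicator (hS n).1)
  have hlim : Filter.Tendsto g Filter.atTop (𝓝 f) := by
    rw [tendsto_iff_norm_sub_tendsto_zero]
    have h1 : ∀ n, ‖g n - f‖ ≤ ∫ x, ‖((S n).indicator v - (⋃ n, S n).indicator v) x‖ ∂ν :=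
      fun n => ((hg n).sub hf).norm_le
    refine squeeze_zero (fun n => norm_nonneg _) h1 ?_
    have h2 : Filter.Tendsto (fun n => ∫ x, ‖((S n).indicator v - (⋃ n, S n).indicator v) x‖ ∂ν)
        Filter.atTop (𝓝 (∫ x, (0 : ℝ) ∂ν)) := by
      refine tendsto_integral_of_dominated_convergence (fun x => ‖v x‖) ?_ hv.norm ?_ ?_
      · intro n
        exact ((hg n).1.sub hf.1).norm.aestronglyMeasurable
      · intro n
        refine Filter.Eventually.of_forall fun x => ?_
        rw [norm_norm]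
        change ‖(S n).indicator v x - (⋃ n, S n).indicator v x‖ ≤ ‖v x‖
        by_cases hx : x ∈ S n
        · have hx' : x ∈ ⋃ n, S n := mem_iUnion.2 ⟨n, hx⟩
          simp [indicator_of_mem hx, indicator_of_mem hx']
        · by_cases hx' : x ∈ ⋃ n, S n
          · simp [indicator_of_notMem hx, indicator_of_mem hx']
          · simp [indicator_of_notMem hx, indicator_of_notMem hx']
      · refine Filter.Eventually.of_forall fun x => ?_
        by_cases hx : x ∈ ⋃ n, S n
        · obtain ⟨N, hN⟩ := mem_iUnion.1 hx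
          refine tendsto_const_nhds.congr' ?_
          filter_upwards [Filter.eventually_ge_atTop N] with n hn
          change (0 : ℝ) = ‖(S n).indicator v x - (⋃ n, S n).indicator v x‖
          rw [indicator_of_mem (hmono hn hN), indicator_of_mem hx, sub_self, norm_zero]
        · have : ∀ n, x ∉ S n := fun n h => hx (mem_iUnion.2 ⟨n, h⟩)
          refine tendsto_const_nhds.congr' (Filter.Eventually.of_forall fun n => ?_)
          change (0 : ℝ) = ‖(S n).indicator v x - (⋃ n, S n).indicator v x‖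
          rw [indicator_of_notMem (this n), indicator_of_notMem hx, sub_self, norm_zero]
    simpa using h2
  exact hV.mem_of_tendsto hlim (Filter.Eventually.of_forall fun n =>
    (hS n).2 v hv _ (hg n))

omit [CompactSpace K] [BorelSpace K] in
theorem good_empty : Good ν V ∅ := by
  refine ⟨MeasurableSet.empty, fun v hv f hf => ?_⟩
  have : f = 0 := by
    ext h
    rw [hf.2 h]
    simp
  rw [this]
  exact V.zero_mem

/-- A good set of maximal measure. -/
theorem exists_max_good (ν : Measure K) (hV : IsClosed (V : Set (StrongDual 𝕜 C(K, 𝕜)))) :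
    ∃ S, Good ν V S ∧ ∀ T, Good ν V T → ν T ≤ ν S := by
  obtain ⟨u, -, hu, hus⟩ := exists_seq_tendsto_sSup (S := {r | ∃ T, Good ν V T ∧ ν T = r})
    ⟨ν ∅, ∅, good_empty, rfl⟩ (OrderTop.bddAbove _)
  choose T hT hTu using hus
  have hgood : ∀ n, Good ν V (accumulate T n) := by
    intro n
    induction n with
    | zero =>
      rw [show accumulate T 0 = T 0 by simp]
      exact hT 0
    | succ n ih =>
      rw [show accumulate T (n + 1) = accumulate T n ∪ T (n + 1) by
        rw [accumulate_succ]]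
      exact ih.union (hT _)
  refine ⟨⋃ n, accumulate T n, Good.iUnion hV monotone_accumulate hgood, fun R hR => ?_⟩
  have h1 : ν R ≤ sSup {r | ∃ T, Good ν V T ∧ ν T = r} := le_sSup ⟨R, hR, rfl⟩
  refine h1.trans (le_of_tendsto hu (Filter.Eventually.of_forall fun n => ?_))
  rw [← hTu n]
  exact measure_mono ((subset_accumulate (s := T) (x := n)).trans
    (subset_iUnion (fun n => accumulate T n) n))

/-- A family of finite regular measures, pairwise singular. -/
def Fam (𝓜 : Set (Measure K)) : Prop :=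
  (∀ μ ∈ 𝓜, IsFiniteMeasure μ ∧ μ.InnerRegular ∧ μ ≠ 0) ∧ 𝓜.Pairwise fun μ μ' => μ ⟂ₘ μ'

omit [CompactSpace K] [BorelSpace K] in
theorem exists_fam : ∃ 𝓜 : Set (Measure K), Fam 𝓜 ∧
    ∀ κ : Measure K, IsFiniteMeasure κ → κ.InnerRegular → (∀ μ ∈ 𝓜, κ ⟂ₘ μ) → κ = 0 := by
  obtain ⟨𝓜, h𝓜⟩ := zorn_subset {𝓜 : Set (Measure K) | Fam 𝓜} (by
    intro c hc hchain
    refine ⟨⋃₀ c, ⟨?_, ?_⟩, fun s hs => subset_sUnion_of_mem hs⟩
    · rintro μ ⟨s, hs, hμ⟩
      exact (hc hs).1 μ hμ
    · rintro μ ⟨s, hs, hμ⟩ μ' ⟨s', hs', hμ'⟩ hne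
      rcases hchain.total hs hs' with h | h
      · exact (hc hs').2 (h hμ) hμ' hne
      · exact (hc hs).2 hμ (h hμ') hne)
  refine ⟨𝓜, h𝓜.prop, fun κ hκ1 hκ2 hκ => ?_⟩
  by_contra h0
  have h1 : Fam (insert κ 𝓜) := by
    refine ⟨?_, ?_⟩
    · rintro μ (rfl | hμ)
      · exact ⟨hκ1, hκ2, h0⟩
      · exact h𝓜.prop.1 μ hμ
    · exact pairwise_insert.2 ⟨h𝓜.prop.2, fun μ hμ _ => ⟨hκ μ hμ, (hκ μ hμ).symm⟩⟩
  have h2 : κ ∈ 𝓜 := by
    have := h𝓜.le_of_ge h1 (subset_insert κ 𝓜)
    exact this (mem_insert κ 𝓜)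
  exact h0 ((Measure.MutuallySingular.self_iff κ).1 (hκ κ h2))

/-- The functionals with densities with respect to the members of a maximal family are linearly
dense. -/
theorem mem_of_fam [T2Space K] (hV : IsClosed (V : Set (StrongDual 𝕜 C(K, 𝕜))))
    {𝓜 : Set (Measure K)} (h𝓜 : Fam 𝓜)
    (hmax : ∀ κ : Measure K, IsFiniteMeasure κ → κ.InnerRegular → (∀ μ ∈ 𝓜, κ ⟂ₘ μ) → κ = 0)
    (hb : ∀ μ ∈ 𝓜, ∀ w : K → 𝕜, MemLp w 2 μ → ∀ f, Rep μ w f → f ∈ V)
    (f : StrongDual 𝕜 C(K, 𝕜)) : f ∈ V := by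
  obtain ⟨ν, hν1, hν2, v, hf⟩ := exists_density f
  obtain ⟨S, hS, hmaxS⟩ := exists_max_good (V := V) ν hV
  set κ : Measure K := ν.restrict Sᶜ with hκ
  have hκ0 : κ = 0 := by
    refine hmax κ inferInstance inferInstance fun μ hμ => ?_
    have _ : IsFiniteMeasure μ := (h𝓜.1 μ hμ).1
    -- Lebesgue decomposition
    have hdec := κ.haveLebesgueDecomposition_add μ
    obtain ⟨N, hN, hN1, hN2⟩ := κ.mutuallySingular_singularPart μ
    -- on `N` the measure `κ` is absolutely continuous
    have hgood : Good ν V (N ∩ Sᶜ) := by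
      refine ⟨hN.inter hS.1.compl, fun w hw g hg => ?_⟩
      set r := κ.rnDeriv μ with hr
      have hrm : Measurable r := Measure.measurable_rnDeriv κ μ
      have hrt : ∀ᵐ x ∂μ, r x < ∞ := Measure.rnDeriv_lt_top κ μ
      have h1 : ν.restrict (N ∩ Sᶜ) = μ.withDensity r := by
        have h0 : κ.restrict N = (κ.singularPart μ + μ.withDensity r).restrict N :=
          congrArg (fun m : Measure K => m.restrict N) hdec
        rw [← Measure.restrict_restrict hN, ← hκ, h0, Measure.restrict_add,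
          Measure.restrict_eq_zero.2 hN1, zero_add]
        refine Measure.restrict_eq_self_of_ae_mem ?_
        rw [ae_iff]
        exact withDensity_absolutelyContinuous μ r hN2
      have h2 : Integrable (fun x => (r x).toReal • w x) μ := by
        rw [← integrable_withDensity_iff_integrable_smul' hrm hrt, ← h1]
        exact hw.restrict
      refine mem_of_integrable (μ := μ) hV (hb μ hμ) (v := fun x => (r x).toReal • w x)
        ⟨h2, fun h => ?_⟩
      have e1 : ∀ x, h x * (N ∩ Sᶜ).indicator w x = (N ∩ Sᶜ).indicator (fun x => h x * w x) x := by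
        intro x
        by_cases hx : x ∈ N ∩ Sᶜ
        · rw [indicator_of_mem hx, indicator_of_mem hx]
        · rw [indicator_of_notMem hx, indicator_of_notMem hx, mul_zero]
      rw [hg.2 h, integral_congr_ae (Filter.Eventually.of_forall e1),
        integral_indicator (hN.inter hS.1.compl), h1,
        integral_withDensity_eq_integral_toReal_smul hrm hrt]
      refine integral_congr_ae (Filter.Eventually.of_forall fun x => ?_)
      change (r x).toReal • (h x * w x) = h x * ((r x).toReal • w x)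
      rw [mul_smul_comm]
    have h1 : ν (S ∪ (N ∩ Sᶜ)) ≤ ν S := hmaxS _ (hS.union hgood)
    have h2 : ν (N ∩ Sᶜ) = 0 := by
      rw [measure_union (disjoint_compl_right.mono_right inter_subset_right)
        (hN.inter hS.1.compl)] at h1
      have := ENNReal.le_of_add_le_add_left (a := ν S) (b := ν (N ∩ Sᶜ)) (c := 0)
        (measure_ne_top ν S) (by simpa using h1)
      exact le_antisymm this zero_le
    refine ⟨N, hN, ?_, hN2⟩
    rw [hκ, Measure.restrict_apply hN]
    exact h2
  have h3 : ν Sᶜ = 0 := by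
    have := congrArg (fun m : Measure K => m univ) hκ0
    simpa [hκ] using this
  refine hS.2 v hf.1 f ⟨hf.1.indicator hS.1, fun h => ?_⟩
  rw [hf.2 h]
  refine integral_congr_ae ?_
  have h4 : ∀ᵐ x ∂ν, x ∈ S := by
    rw [ae_iff]
    exact h3
  filter_upwards [h4] with x hx
  rw [indicator_of_mem hx]

end Pool.Agent.Work.MP_6c3bcd_an.CK
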