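import Pool.Agent.Work.MP_6c3bcd_an.CK.Dom

/-!
# Functionals on `C(K)` given by densities
-/

namespace Pool.Agent.Work.MP_6c3bcd_an.CK

open MeasureTheory Set Topology
open scoped NNReal ENNReal CompactlySupported

variable {𝕜 : Type*} [RCLike 𝕜] {K : Type*} [TopologicalSpace K] [CompactSpace K]
  [MeasurableSpace K] [BorelSpace K]

/-- `f` has the density `v` with respect to `ν`. -/
def Rep (ν : Measure K) (v : K → 𝕜) (f : StrongDual 𝕜 C(K, 𝕜)) : Prop :=
  Integrable v ν ∧ ∀ h : C(K, 𝕜), f h = ∫ x, h x * v x ∂ν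

theorem integrable_mul {ν : Measure K} {v : K → 𝕜} (hv : Integrable v ν) (h : C(K, 𝕜)) :
    Integrable (fun x => h x * v x) ν := by
  refine hv.bdd_mul (c := ‖h‖) ?_ ?_
  · exact h.continuous.measurable.aestronglyMeasurable
  · exact Filter.Eventually.of_forall fun x => h.norm_coe_le_norm x

theorem exists_rep {ν : Measure K} {v : K → 𝕜} (hv : Integrable v ν) :
    ∃ f : StrongDual 𝕜 C(K, 𝕜), Rep ν v f := by
  let L : C(K, 𝕜) →ₗ[𝕜] 𝕜 :=
    { toFun := fun h => ∫ x, h x * v x ∂ν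
      map_add' := by
        intro h₁ h₂
        rw [← integral_add (integrable_mul hv h₁) (integrable_mul hv h₂)]
        exact integral_congr_ae (Filter.Eventually.of_forall fun x => add_mul _ _ _)
      map_smul' := by
        intro c h
        rw [RingHom.id_apply, smul_eq_mul, ← integral_const_mul]
        exact integral_congr_ae (Filter.Eventually.of_forall fun x => mul_assoc _ _ _) }
  refine ⟨L.mkContinuous (∫ x, ‖v x‖ ∂ν) fun h => ?_, hv, fun h => rfl⟩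
  change ‖∫ x, h x * v x ∂ν‖ ≤ _
  refine (norm_integral_le_integral_norm _).trans ?_
  rw [mul_comm, ← integral_const_mul]
  refine integral_mono (integrable_mul hv h).norm (hv.norm.const_mul _) fun x => ?_
  change ‖h x * v x‖ ≤ ‖h‖ * ‖v x‖
  rw [norm_mul]
  exact mul_le_mul_of_nonneg_right (h.norm_coe_le_norm x) (norm_nonneg _)

theorem Rep.norm_le {ν : Measure K} {v : K → 𝕜} {f : StrongDual 𝕜 C(K, 𝕜)} (hf : Rep ν v f) :
    ‖f‖ ≤ ∫ x, ‖v x‖ ∂ν := by
  refine f.opNorm_le_bound (integral_nonneg fun x => norm_nonneg _) fun h => ?_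
  rw [hf.2 h]
  refine (norm_integral_le_integral_norm _).trans ?_
  rw [mul_comm, ← integral_const_mul]
  refine integral_mono (integrable_mul hf.1 h).norm (hf.1.norm.const_mul _) fun x => ?_
  change ‖h x * v x‖ ≤ ‖h‖ * ‖v x‖
  rw [norm_mul]
  exact mul_le_mul_of_nonneg_right (h.norm_coe_le_norm x) (norm_nonneg _)

theorem Rep.sub {ν : Measure K} {v w : K → 𝕜} {f g : StrongDual 𝕜 C(K, 𝕜)} (hf : Rep ν v f)
    (hg : Rep ν w g) : Rep ν (v - w) (f - g) := by
  refine ⟨hf.1.sub hg.1, fun h => ?_⟩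
  rw [sub_apply, hf.2, hg.2,
    ← integral_sub (integrable_mul hf.1 h) (integrable_mul hg.1 h)]
  exact integral_congr_ae (Filter.Eventually.of_forall fun x => (mul_sub _ _ _).symm)

theorem Rep.add {ν : Measure K} {v w : K → 𝕜} {f g : StrongDual 𝕜 C(K, 𝕜)} (hf : Rep ν v f)
    (hg : Rep ν w g) : Rep ν (v + w) (f + g) := by
  refine ⟨hf.1.add hg.1, fun h => ?_⟩
  rw [add_apply, hf.2, hg.2,
    ← integral_add (integrable_mul hf.1 h) (integrable_mul hg.1 h)]
  exact integral_congr_ae (Filter.Eventually.of_forall fun x => (mul_add _ _ _).symm)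

/-- Every functional on `C(K)` has a density with respect to a finite regular measure. -/
theorem exists_density [T2Space K] (f : StrongDual 𝕜 C(K, 𝕜)) :
    ∃ ν : Measure K, IsFiniteMeasure ν ∧ ν.InnerRegular ∧ ∃ v : K → 𝕜, Rep ν v f := by
  obtain ⟨ν, hν1, hν2, hν⟩ := exists_dom f
  refine ⟨ν, hν1, inferInstance, ?_⟩
  let e : C(K, 𝕜) →L[𝕜] Lp 𝕜 2 ν := ContinuousMap.toLp 2 ν 𝕜
  have he : ∀ h : C(K, 𝕜), (e h : K → 𝕜) =ᵐ[ν] h := fun h => ContinuousMap.coeFn_toLp ν h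
  have hd : DenseRange e := ContinuousMap.toLp_denseRange 𝕜 ν 𝕜 (by norm_num)
  have hbound : ∃ C : ℝ, ∀ h : C(K, 𝕜), ‖f h‖ ≤ C * ‖e h‖ := by
    refine ⟨(ν univ ^ (1 / (1 : ℝ≥0∞).toReal - 1 / (2 : ℝ≥0∞).toReal)).toReal, fun h => ?_⟩
    refine (hν h).trans ?_
    have hm : AEStronglyMeasurable (h : K → 𝕜) ν := h.continuous.measurable.aestronglyMeasurable
    have h1 : eLpNorm (h : K → 𝕜) 1 ν ≤ eLpNorm (h : K → 𝕜) 2 ν *
        ν univ ^ (1 / (1 : ℝ≥0∞).toReal - 1 / (2 : ℝ≥0∞).toReal) :=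
      eLpNorm_le_eLpNorm_mul_rpow_measure_univ (by norm_num) hm
    have h2 : ∫ x, ‖h x‖ ∂ν = (eLpNorm (h : K → 𝕜) 1 ν).toReal := by
      rw [integral_norm_eq_lintegral_enorm hm, eLpNorm_one_eq_lintegral_enorm]
    have h3 : ‖e h‖ = (eLpNorm (h : K → 𝕜) 2 ν).toReal := by
      rw [Lp.norm_def, eLpNorm_congr_ae (he h)]
    have hlt : eLpNorm (h : K → 𝕜) 2 ν < ∞ := by
      rw [← eLpNorm_congr_ae (he h)]
      exact Lp.eLpNorm_lt_top (e h)
    rw [h2, h3, mul_comm, ← ENNReal.toReal_mul]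
    refine ENNReal.toReal_mono (ENNReal.mul_ne_top hlt.ne ?_) h1
    refine ENNReal.rpow_ne_top_of_nonneg (by norm_num) (measure_ne_top ν univ)
  let F : Lp 𝕜 2 ν →L[𝕜] 𝕜 := (f : C(K, 𝕜) →ₗ[𝕜] 𝕜).extendOfNorm (e : C(K, 𝕜) →ₗ[𝕜] Lp 𝕜 2 ν)
  have hF : ∀ h, F (e h) = f h := fun h => LinearMap.extendOfNorm_eq hd hbound h
  let u : Lp 𝕜 2 ν := (InnerProductSpace.toDual 𝕜 (Lp 𝕜 2 ν)).symm F
  have hu : ∀ w, inner 𝕜 u w = F w := fun w => InnerProductSpace.toDual_symm_apply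
  refine ⟨fun x => (starRingEnd 𝕜) (u x), ?_, fun h => ?_⟩
  · have h1 : Integrable (u : K → 𝕜) ν := (Lp.memLp u).integrable (by norm_num)
    exact (RCLike.conjCLE (K := 𝕜)).toContinuousLinearMap.integrable_comp h1
  · rw [← hF h, ← hu, L2.inner_def]
    refine integral_congr_ae ?_
    filter_upwards [he h] with x hx
    rw [hx, RCLike.inner_apply]

end Pool.Agent.Work.MP_6c3bcd_an.CK
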