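import Pool.Agent.Work.MP_6c3bcd_an.CK.Exh

/-!
# Functionals carried by mutually singular measures
-/

namespace Pool.Agent.Work.MP_6c3bcd_an.CK

open MeasureTheory Set Topology
open scoped NNReal ENNReal CompactlySupported

variable {𝕜 : Type*} [RCLike 𝕜] {K : Type*} [TopologicalSpace K] [CompactSpace K]
  [MeasurableSpace K] [BorelSpace K]

omit [CompactSpace K] [BorelSpace K] in
theorem exists_sum [T2Space K] (F : Finset (Measure K))
    (hF : ∀ μ ∈ F, IsFiniteMeasure μ ∧ μ.InnerRegular) :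
    ∃ m : Measure K, IsFiniteMeasure m ∧ m.InnerRegular ∧ (∀ μ ∈ F, μ ≤ m) ∧
      ∀ ν : Measure K, (∀ μ ∈ F, μ ⟂ₘ ν) → m ⟂ₘ ν := by
  classical
  induction F using Finset.induction with
  | empty =>
    exact ⟨0, inferInstance, inferInstance, by simp, fun ν _ => Measure.MutuallySingular.zero_left⟩
  | insert κ F hκ ih =>
    obtain ⟨m, hm1, hm2, hm3, hm4⟩ := ih fun μ hμ => hF μ (Finset.mem_insert_of_mem hμ)
    obtain ⟨h1, h2⟩ := hF κ (Finset.mem_insert_self κ F)
    refine ⟨κ + m, inferInstance, inferInstance, ?_, ?_⟩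
    · intro μ hμ
      rcases Finset.mem_insert.1 hμ with rfl | hμ
      · exact Measure.le_add_right le_rfl
      · exact Measure.le_add_left (hm3 μ hμ)
    · intro ν hν
      exact (hν κ (Finset.mem_insert_self κ F)).add_left
        (hm4 ν fun μ hμ => hν μ (Finset.mem_insert_of_mem hμ))

/-- Finite families of mutually singular measures are separated by continuous functions. -/
theorem exists_sep [T2Space K] (F F' : Finset (Measure K))
    (hF : ∀ μ ∈ F, IsFiniteMeasure μ ∧ μ.InnerRegular)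
    (hF' : ∀ μ ∈ F', IsFiniteMeasure μ ∧ μ.InnerRegular)
    (hs : ∀ μ ∈ F, ∀ μ' ∈ F', μ ⟂ₘ μ') {δ : ℝ} (hδ : 0 < δ) :
    ∃ φ : C(K, ℝ), (∀ x, 0 ≤ φ x ∧ φ x ≤ 1) ∧ (∀ μ ∈ F, ∫ x, (1 - φ x) ∂μ ≤ δ) ∧
      ∀ μ ∈ F', ∫ x, φ x ∂μ ≤ δ := by
  obtain ⟨m, hm1, hm2, hm3, hm4⟩ := exists_sum F hF
  obtain ⟨m', hm1', hm2', hm3', hm4'⟩ := exists_sum F' hF'
  have hmm : m ⟂ₘ m' := hm4 m' fun μ hμ => (hm4' μ fun μ' hμ' => (hs μ hμ μ' hμ').symm).symm
  obtain ⟨N, hN, hN1, hN2⟩ := hmm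
  obtain ⟨L, hLN, hL, hLm⟩ := hN.compl.exists_isCompact_lt_add (μ := m) (measure_ne_top _ _)
    (ENNReal.ofReal_pos.2 hδ).ne'
  have hL0 : m' L = 0 := measure_mono_null hLN hN2
  obtain ⟨U, hLU, hU, hUm⟩ := L.exists_isOpen_lt_of_lt (μ := m') (r := ENNReal.ofReal δ)
    (by rw [hL0]; exact ENNReal.ofReal_pos.2 hδ)
  obtain ⟨ψ, hψ1, hψ2, hψ3⟩ := exists_continuous_zero_one_of_isClosed hU.isClosed_compl
    hL.isClosed (disjoint_compl_left_iff_subset.2 hLU)
  have hmL : m Lᶜ ≤ ENNReal.ofReal δ := by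
    have h1 : m Lᶜ ≤ m N + m (Nᶜ \ L) := by
      refine (measure_mono ?_).trans (measure_union_le _ _)
      intro x hx
      by_cases hxN : x ∈ N
      · exact Or.inl hxN
      · exact Or.inr ⟨hxN, hx⟩
    rw [hN1, zero_add, measure_sdiff hLN hL.measurableSet.nullMeasurableSet (measure_ne_top _ _)] at h1
    refine h1.trans ?_
    rw [tsub_le_iff_left]
    exact hLm.le
  have hbd : ∀ (μ : Measure K), IsFiniteMeasure μ → ∀ (f : C(K, ℝ)) (S : Set K),
      MeasurableSet S → (∀ x, 0 ≤ f x ∧ f x ≤ 1) → (∀ x ∉ S, f x = 0) → μ S ≤ ENNReal.ofReal δ →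
      ∫ x, f x ∂μ ≤ δ := by
    intro μ hμ f S hS hf hfS hμS
    have h1 : ∫ x, f x ∂μ ≤ ∫ x, S.indicator (fun _ => (1 : ℝ)) x ∂μ := by
      refine integral_mono ?_ ((integrable_const 1).indicator hS) fun x => ?_
      · exact Integrable.of_bound f.continuous.measurable.aestronglyMeasurable 1
          (Filter.Eventually.of_forall fun x => by
            rw [Real.norm_eq_abs, abs_of_nonneg (hf x).1]; exact (hf x).2)
      · by_cases hx : x ∈ S
        · change f x ≤ S.indicator (fun _ => (1 : ℝ)) x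
          rw [indicator_of_mem hx]
          exact (hf x).2
        · change f x ≤ S.indicator (fun _ => (1 : ℝ)) x
          rw [indicator_of_notMem hx, hfS x hx]
    rw [integral_indicator hS, setIntegral_const, smul_eq_mul, mul_one] at h1
    exact h1.trans (ENNReal.toReal_le_of_le_ofReal hδ.le hμS)
  refine ⟨ψ, fun x => hψ3 x, fun μ hμ => ?_, fun μ hμ => ?_⟩
  · refine hbd μ (hF μ hμ).1 (1 - ψ) Lᶜ hL.measurableSet.compl (fun x => ?_) (fun x hx => ?_) ?_
    · have := hψ3 x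
      constructor
      · change 0 ≤ 1 - ψ x
        linarith [this.2]
      · change 1 - ψ x ≤ 1
        linarith [this.1]
    · have hx' : x ∈ L := not_not.1 hx
      change 1 - ψ x = 0
      rw [hψ2 hx']
      simp
    · exact ((hm3 μ hμ) _).trans hmL
  · refine hbd μ (hF' μ hμ).1 ψ U hU.measurableSet (fun x => hψ3 x) (fun x hx => ?_) ?_
    · exact hψ1 hx
    · exact ((hm3' μ hμ) _).trans hUm.le

end Pool.Agent.Work.MP_6c3bcd_an.CK
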